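import Pool.Agent.H.MP_771d0b_an.B

namespace Pool.Agent.Results.MP_771d0b_an.No

open Set Topology Pool.Agent.H.MP_771d0b_an

def pr (y : ℤ → Bool) (j : ℤ) : Prop := y j = false ∧ y (j + 1) = false ∧ y (j + 2) = true

def u (y : ℤ → Bool) (p : ℤ) : ℤ :=
  if y p = true then p else if y (p + 1) = true then p + 1 else if y (p + 2) = true then p + 2 else p

def cnt (a : ℕ) (y c : ℤ → Bool) (i : ℤ) : ℕ := Nat.ofBits fun t : Fin a => c (u y (i + 3 * (t : ℕ)))

def act (y : ℤ → Bool) (m : ℤ → ℤ) (c : ℤ → Bool) (i : ℤ) : Prop := ∃ j, pr y j ∧ m j = i ∧ c j ≠ c (j + 1)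

def cp (a : ℕ) (y : ℤ → Bool) (i p : ℤ) : Prop := ∃ t : Fin a, p = u y (i + 3 * (t : ℕ))

open Classical in
noncomputable def H (a : ℕ) (y : ℤ → Bool) (m : ℤ → ℤ) (c : ℤ → Bool) (p : ℤ) : Bool :=
  if pr y p then (if cnt a y c (m p) + 1 = 2 ^ a then c (p + 1) else c p)
  else if pr y (p - 1) then (if cnt a y c (m (p - 1)) + 1 = 2 ^ a then c (p - 1) else c p)
  else if cp a y (m p) p ∧ act y m c (m p) then (cnt a y c (m p) + 1).testBit ((p - m p) / 3).toNat else c p

open Classical in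
noncomputable def G (y c : ℤ → Bool) (p : ℤ) : Bool :=
  if pr y p then c (p + 1) else if pr y (p - 1) then c (p - 1) else c p

lemma u_spec (y : ℤ → Bool) (p : ℤ) :
    p ≤ u y p ∧ u y p ≤ p + 2 ∧ ¬ pr y (u y p) ∧ ¬ pr y (u y p - 1) := by
  unfold u pr
  split_ifs <;> simp_all [show ∀ q : ℤ, q - 1 + 2 = q + 1 from fun q => by ring]

lemma pr_succ {y : ℤ → Bool} {j : ℤ} (h : pr y j) : ¬ pr y (j + 1) := fun h' => by
  have := h'.2.1
  rw [add_assoc, one_add_one_eq_two, h.2.2] at this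
  simp at this

variable {a : ℕ} {y : ℤ → Bool} {m : ℤ → ℤ}

lemma H1 {j : ℤ} (h : pr y j) (c : ℤ → Bool) :
    H a y m c j = (if cnt a y c (m j) + 1 = 2 ^ a then c (j + 1) else c j) ∧
      H a y m c (j + 1) = if cnt a y c (m j) + 1 = 2 ^ a then c j else c (j + 1) := by
  simp [H, h, pr_succ h]

lemma act_H (c : ℤ → Bool) (i : ℤ) : act y m (H a y m c) i ↔ act y m c i :=
  exists_congr fun j => and_congr_right fun h => and_congr_right fun _ => by
    rw [(H1 h c).1, (H1 h c).2]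
    split_ifs
    exacts [ne_comm, Iff.rfl]

lemma act_it (c : ℤ → Bool) (i : ℤ) (n : ℕ) : act y m ((H a y m)^[n] c) i ↔ act y m c i := by
  induction n with
  | zero => rfl
  | succ n ih => rw [Function.iterate_succ_apply', act_H, ih]

lemma cnt_H (hm : ∀ j (t : ℕ), t < 3 * a + 1 → m (m j + t) = m j) (c : ℤ → Bool) (j : ℤ) (h : act y m c (m j)) :
    cnt a y (H a y m c) (m j) = (cnt a y c (m j) + 1) % 2 ^ a := by
  rw [← Nat.ofBits_testBit, cnt]
  congr 1
  funext t
  obtain ⟨h1, h2, h3, h4⟩ := u_spec y (m j + 3 * (t : ℕ))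
  have h5 : m (u y (m j + 3 * (t : ℕ))) = m j := by
    have := hm j (u y (m j + 3 * (t : ℕ)) - m j).toNat (by omega)
    rwa [show m j + ((u y (m j + 3 * (t : ℕ)) - m j).toNat : ℕ) = u y (m j + 3 * (t : ℕ)) by omega] at this
  rw [H, if_neg h3, if_neg h4, h5, if_pos ⟨⟨t, rfl⟩, h⟩]
  congr 1
  omega

lemma cnt_it (hm : ∀ j (t : ℕ), t < 3 * a + 1 → m (m j + t) = m j) (c : ℤ → Bool) (j : ℤ) (h : act y m c (m j))
    (n : ℕ) : cnt a y ((H a y m)^[n] c) (m j) = (cnt a y c (m j) + n) % 2 ^ a := by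
  induction n with
  | zero => exact (Nat.mod_eq_of_lt (Nat.ofBits_lt_two_pow _)).symm
  | succ n ih => rw [Function.iterate_succ_apply', cnt_H hm _ _ ((act_it c _ n).2 h), ih, Nat.mod_add_mod, add_assoc]

lemma pr_it (hm : ∀ j (t : ℕ), t < 3 * a + 1 → m (m j + t) = m j) (c : ℤ → Bool) {j : ℤ} (h : pr y j) :
    (H a y m)^[2 ^ a] c j = c (j + 1) ∧ (H a y m)^[2 ^ a] c (j + 1) = c j := by
  by_cases e : c j = c (j + 1)
  · have : ∀ n, (H a y m)^[n] c j = c (j + 1) ∧ (H a y m)^[n] c (j + 1) = c j := fun n => by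
      induction n with
      | zero => exact ⟨e, e.symm⟩
      | succ n ih => rw [Function.iterate_succ_apply', (H1 h _).1, (H1 h _).2, ih.1, ih.2, e]; simp
    exact this _
  have h1 : cnt a y c (m j) < 2 ^ a := Nat.ofBits_lt_two_pow _
  have : ∀ n ≤ 2 ^ a, (H a y m)^[n] c j = (if 2 ^ a ≤ cnt a y c (m j) + n then c (j + 1) else c j) ∧
      (H a y m)^[n] c (j + 1) = if 2 ^ a ≤ cnt a y c (m j) + n then c j else c (j + 1) := fun n hn => by
    induction n with
    | zero => simp [h1.not_ge]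
    | succ n ih =>
      rw [Function.iterate_succ_apply', (H1 h _).1, (H1 h _).2, (ih (by omega)).1, (ih (by omega)).2,
        cnt_it hm c j ⟨j, h, rfl, e⟩]
      generalize 2 ^ a = M at *
      generalize cnt a y c (m j) = s at *
      have : (s + n) % M + 1 = M ↔ s + n + 1 = M := by
        by_cases h2 : M ≤ s + n
        · rw [Nat.mod_eq_sub_mod h2, Nat.mod_eq_of_lt (by omega)]
          omega
        · rw [Nat.mod_eq_of_lt (by omega)]
      simp only [this]
      split_ifs <;> first | omega | exact ⟨rfl, rfl⟩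
  simpa using this _ le_rfl

lemma H_it (hm : ∀ j (t : ℕ), t < 3 * a + 1 → m (m j + t) = m j) (c : ℤ → Bool) :
    (H a y m)^[2 ^ a] c = G y c := funext fun p => by
  rw [G]
  split_ifs with h1 h2
  · exact (pr_it hm c h1).1
  · simpa using (pr_it hm c h2).2
  by_cases h3 : cp a y (m p) p ∧ act y m c (m p)
  · obtain ⟨⟨t, ht⟩, h3⟩ := h3
    have := cnt_it hm c p h3 (2 ^ a)
    rw [Nat.add_mod_right, Nat.mod_eq_of_lt (show cnt a y c (m p) < 2 ^ a from Nat.ofBits_lt_two_pow _)] at this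
    have := congrArg (·.testBit t) this
    simp only [cnt, Nat.testBit_ofBits_lt _ _ t.2] at this
    rwa [← ht] at this
  · induction 2 ^ a with
    | zero => rfl
    | succ n ih => rw [Function.iterate_succ_apply', H, if_neg h1, if_neg h2, if_neg (by rwa [act_it]), ih]

lemma GG (c : ℤ → Bool) : G y (G y c) = c := funext fun p => by
  by_cases h1 : pr y p
  · simp [G, h1, pr_succ h1]
  by_cases h2 : pr y (p - 1) <;> simp [G, h1, h2]

lemma H_const {c : ℤ → Bool} (h : Const y c) : H a y m c = c := funext fun p => by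
  rw [H]
  split_ifs with h1 _ h2 _ h3
  · exact h _ _ h1.2.1 h1.1
  · rfl
  · exact h _ _ h2.1 (by simpa using h2.2.1)
  · rfl
  · obtain ⟨j, h4, -, h5⟩ := h3.2
    exact (h5 (h _ _ h4.1 h4.2.1)).elim
  · rfl

lemma H_eq (c : ℤ → Bool) (p : ℤ) : H a (fun n => y (n + 1)) (fun j => m (j + 1) - 1) (fun n => c (n + 1)) p =
    H a y m c (p + 1) := by
  classical
  have e1 : ∀ p, pr (fun n => y (n + 1)) p = pr y (p + 1) := fun p => by simp only [pr, add_right_comm p _ 1]
  have e2 : ∀ p, u (fun n => y (n + 1)) p = u y (p + 1) - 1 := fun p => by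
    simp only [u, add_right_comm p _ 1]
    split_ifs <;> ring
  have e3 : ∀ i, cnt a (fun n => y (n + 1)) (fun n => c (n + 1)) (i - 1) = cnt a y c i := fun i => by
    simp only [cnt, e2, sub_add_cancel, show ∀ s, i - 1 + s + 1 = i + s from fun s => by ring]
  have e4 : ∀ i, act (fun n => y (n + 1)) (fun j => m (j + 1) - 1) (fun n => c (n + 1)) (i - 1) = act y m c i :=
    fun i => by
      simp only [act, e1, sub_left_inj]
      exact propext ((Equiv.addRight (1 : ℤ)).exists_congr fun j => Iff.rfl)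
  have e5 : ∀ i p, cp a (fun n => y (n + 1)) (i - 1) p = cp a y i (p + 1) := fun i p => by
    simp only [cp, e2, eq_sub_iff_add_eq, show ∀ s, i - 1 + s + 1 = i + s from fun s => by ring]
  simp only [H, e1, e3, e4, e5, sub_add_cancel, add_sub_cancel_right,
    show p - (m (p + 1) - 1) = p + 1 - m (p + 1) by ring]

lemma H_cont (m : X → ℤ → ℤ) (M : ℕ) (h1 : ∀ j, Continuous fun y => m y j)
    (h2 : ∀ y j, m y j ≤ j ∧ j < m y j + M) : Continuous fun z : X × (ℤ → Bool) => H a z.1 (m z.1) z.2 := by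
  classical
  refine continuous_pi fun p => continuous_iff_continuousAt.2 fun z => ?_
  have L : ∀ {D : Type} [TopologicalSpace D] [DiscreteTopology D] (f : ℤ → X × (ℤ → Bool) → D),
      (∀ n, Continuous (f n)) → ∀ R : ℤ, ∀ᶠ w in 𝓝 z, ∀ n ∈ Finset.Icc (p - R) (p + R), f n w = f n z :=
    fun f hf R => (Filter.eventually_all_finset _).2 fun n _ =>
      (hf n).continuousAt.eventually (p := fun d => d = f n z) (by simp)
  refine (tendsto_const_nhds (x := H a z.1 (m z.1) z.2 p)).congr' ?_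
  filter_upwards [L (fun n w => w.1.1 n) (fun n => (ev n).comp continuous_fst) (M + 3 * a + 4),
    L (fun n w => w.2 n) (fun n => by fun_prop) (M + 3 * a + 4),
    L (fun n w => m w.1 n) (fun n => (h1 n).comp continuous_fst) (M + 3 * a + 4)] with w k1 k2 k3
  simp only [Finset.mem_Icc] at k1 k2 k3
  have e1 : ∀ q, p - M - 1 ≤ q → q ≤ p + M → (pr w.1 q ↔ pr z.1 q) := fun q _ _ => by
    rw [pr, pr, k1 _ (by omega), k1 _ (by omega), k1 _ (by omega)]
  have e2 : ∀ q, p - M - 1 ≤ q → q ≤ p + M + 3 * a → u w.1 q = u z.1 q := fun q _ _ => by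
    rw [u, u, k1 _ (by omega), k1 _ (by omega), k1 _ (by omega)]
  have e3 : ∀ i, p - M - 1 ≤ i → i ≤ p → cnt a w.1 w.2 i = cnt a z.1 z.2 i := fun i _ _ => by
    refine congrArg Nat.ofBits (funext fun t => ?_)
    have := u_spec z.1 (i + 3 * (t : ℕ))
    rw [e2 _ (by omega) (by omega), k2 _ (by omega)]
  have e4 : ∀ i, p - M ≤ i → i ≤ p → (act w.1 (m w.1) w.2 i ↔ act z.1 (m z.1) z.2 i) := fun i _ _ => by
    refine exists_congr fun j => ?_
    have := h2 w.1 j
    have := h2 z.1 j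
    by_cases h : i ≤ j ∧ j < i + M
    · rw [e1 _ (by omega) (by omega), k3 _ (by omega), k2 _ (by omega), k2 _ (by omega)]
    · exact iff_of_false (fun h => by omega) fun h => by omega
  have e5 : ∀ i, p - M ≤ i → i ≤ p → (cp a w.1 i p ↔ cp a z.1 i p) := fun i _ _ =>
    exists_congr fun t => by rw [e2 _ (by omega) (by omega)]
  have := h2 z.1 p
  have := h2 z.1 (p - 1)
  simp only [H, e1 p (by omega) (by omega), e1 (p - 1) (by omega) (by omega), k3 p (by omega),
    k3 (p - 1) (by omega), k2 p (by omega), k2 (p - 1) (by omega), k2 (p + 1) (by omega),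
    e3 (m z.1 p) (by omega) (by omega), e3 (m z.1 (p - 1)) (by omega) (by omega),
    e4 (m z.1 p) (by omega) (by omega), e5 (m z.1 p) (by omega) (by omega)]

lemma root (a : ℕ) : ∃ h : Aut, Lifts (h ^ 2 ^ a : Aut).1 fun y => G y := by
  obtain ⟨m, h1, h2, h3, h4⟩ := blocks (3 * a + 1) (by omega)
  have e : ∀ y : X, (H a y (m y))^[2 ^ a] = G y := fun y => funext (H_it (h4 y))
  obtain ⟨h, hh⟩ := lift (fun y => H a y (m y)) (H_cont m (2 * (3 * a + 1)) h1 (by simpa using h3))
    (fun y c => funext fun p => by rw [funext (h2 y)]; exact H_eq c p) (fun _ _ => H_const)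
    (2 ^ a + 2 ^ a - 1) fun y => by
      rw [Nat.sub_add_cancel (by have := Nat.one_le_two_pow (n := a); omega), Function.iterate_add, e]
      exact funext GG
  refine ⟨h, ?_⟩
  have := hh.iter (2 ^ a)
  simp only [e] at this
  have e2 : ∀ n, ⇑(h ^ n : Aut).1 = h.1^[n] := fun n => by
    induction n with
    | zero => rfl
    | succ n ih => rw [pow_succ, Function.iterate_succ, ← ih]; rfl
  rwa [e2]

theorem result : ¬ Group.ResiduallyFinite Aut := by
  rw [Group.residuallyFinite_iff_forall_finiteIndexNormalSubgroup]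
  intro hR
  obtain ⟨g, hg⟩ := root 0
  rw [pow_zero, pow_one] at hg
  have g2 : g ^ 2 = 1 := Subtype.ext (DFunLike.coe_injective ((hg.iter 2).uniq (g := id) fun y c k => by
    simp [GG]))
  have g1 := hR g fun K => by
    obtain ⟨h, hh⟩ := root K.toSubgroup.index
    obtain rfl : g = h ^ 2 ^ K.toSubgroup.index := Subtype.ext (DFunLike.coe_injective (hg.uniq hh))
    have h1 : orderOf (h : Aut ⧸ K.toSubgroup) ∣ 2 ^ (K.toSubgroup.index + 1) :=
      orderOf_dvd_of_pow_eq_one (by rw [← QuotientGroup.mk_pow, pow_succ, pow_mul, g2]; rfl)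
    obtain ⟨j, -, h2⟩ := (Nat.dvd_prime_pow Nat.prime_two).1 h1
    have h3 : orderOf (h : Aut ⧸ K.toSubgroup) ≤ K.toSubgroup.index := orderOf_le_card
    have h4 := Nat.lt_two_pow_self (n := j)
    refine (QuotientGroup.eq_one_iff (N := K.toSubgroup) _).1 ?_
    rw [QuotientGroup.mk_pow, ← orderOf_dvd_iff_pow_eq_one, h2]
    exact pow_dvd_pow 2 (by omega)
  obtain ⟨w, hw⟩ := Xne
  obtain ⟨q, hq⟩ : ∃ q, w q = false := by
    rcases nobbb hw 0 with h | h | h <;> exact ⟨_, h⟩
  obtain ⟨y, hy⟩ : ∃ y : X, pr y (4 * q) := ⟨P ⟨w, hw⟩ (fun _ => true) 0, by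
    simp only [pr, P]
    rw [piv _ _ q 0 (by omega) (by omega) (by omega), piv _ _ q 1 (by omega) (by omega) (by omega),
      piv _ _ q 2 (by omega) (by omega) (by omega), hq]
    decide⟩
  have := hg y (fun n => decide (n = 4 * q)) 0
  rw [g1] at this
  have h : pi y (fun n => decide (n = 4 * q)) 0 = pi y (G y fun n => decide (n = 4 * q)) 0 :=
    congrArg Subtype.val this
  have := (amb0 0 h (by simp) (4 * q)).2
  simp [G, hy] at this

end Pool.Agent.Results.MP_771d0b_an.No
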